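import Pool.Agent.Helper94.DN.St

set_option autoImplicit false

namespace Pool.Agent.Helper6.DN

open Pool.Agent.Helper94.DN

private theorem rp_le {q : ℝ} (hq : 1 ≤ q) {a b : ℝ} (h : a ≤ b) : q ^ a ≤ q ^ b :=
  Real.rpow_le_rpow_of_exponent_le hq h

private theorem tele {q : ℝ} (hq : 1 ≤ q) :
    (q + 1) ^ (-(7 / 5) : ℝ) ≤ 5 / 2 * (q ^ (-(2 / 5) : ℝ) - (q + 1) ^ (-(2 / 5) : ℝ)) := by
  have h0 : (0 : ℝ) < q := by linarith
  have h1 : (0 : ℝ) < q + 1 := by linarith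
  set b : ℝ := (q + 1) ^ (2 / 5 : ℝ) with hb
  set a : ℝ := q ^ (2 / 5 : ℝ) with ha
  have ha0 : 0 < a := Real.rpow_pos_of_pos h0 _
  have hb0 : 0 < b := Real.rpow_pos_of_pos h1 _
  have hB : (1 + -(1 / (q + 1))) ^ (2 / 5 : ℝ) ≤ 1 + 2 / 5 * -(1 / (q + 1)) :=
    rpow_one_add_le_one_add_mul_self (by
      have : 1 / (q + 1) ≤ 1 := by
        rw [div_le_one h1]; linarith
      linarith) (by norm_num) (by norm_num)
  have hab : a = b * (1 + -(1 / (q + 1))) ^ (2 / 5 : ℝ) := by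
    rw [hb, ← Real.mul_rpow h1.le (by
      have : 1 / (q + 1) ≤ 1 := by
        rw [div_le_one h1]; linarith
      linarith), ha]
    congr 1
    field_simp
    ring
  have hle : a ≤ b * (1 + 2 / 5 * -(1 / (q + 1))) := by
    rw [hab]
    exact mul_le_mul_of_nonneg_left hB hb0.le
  have e1 : q ^ (-(2 / 5) : ℝ) = a⁻¹ := by rw [Real.rpow_neg h0.le]
  have e2 : (q + 1) ^ (-(2 / 5) : ℝ) = b⁻¹ := by rw [Real.rpow_neg h1.le]
  have e3 : (q + 1) ^ (-(7 / 5) : ℝ) = (q + 1)⁻¹ * b⁻¹ := by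
    have : (-(7 / 5) : ℝ) = -1 + -(2 / 5) := by norm_num
    rw [this, Real.rpow_add h1, e2, Real.rpow_neg_one]
  rw [e1, e2, e3]
  set t : ℝ := (q + 1)⁻¹ with ht
  have ht0 : 0 < t := inv_pos.2 h1
  have ht1 : t < 1 := inv_lt_one_of_one_lt₀ (by linarith)
  have hle' : a ≤ b * (1 - 2 / 5 * t) := by
    rw [one_div] at hle
    linarith
  have hp : 0 < 1 - 2 / 5 * t := by nlinarith
  have h2 : (b * (1 - 2 / 5 * t))⁻¹ ≤ a⁻¹ := inv_anti₀ ha0 hle'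
  have h3 : (1 + 2 / 5 * t) ≤ (1 - 2 / 5 * t)⁻¹ := by
    rw [← one_div, le_div_iff₀ hp]
    nlinarith
  have h4 : b⁻¹ * (1 + 2 / 5 * t) ≤ a⁻¹ := by
    refine le_trans ?_ h2
    rw [mul_inv]
    exact mul_le_mul_of_nonneg_left h3 (inv_pos.2 hb0).le
  nlinarith

private theorem sumtele (z : ℕ) (hz : 1 ≤ z) (x : ℕ) (hx : z ≤ x) :
    ∑ q ∈ Finset.Ioc z x, (q : ℝ) ^ (-(7 / 5) : ℝ) ≤
      5 / 2 * ((z : ℝ) ^ (-(2 / 5) : ℝ) - (x : ℝ) ^ (-(2 / 5) : ℝ)) := by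
  induction x, hx using Nat.le_induction with
  | base => simp
  | succ n hn ih =>
    rw [Finset.sum_Ioc_succ_top hn]
    have h := tele (q := (n : ℝ)) (by exact_mod_cast hz.trans hn)
    push_cast
    linarith

private theorem term (q : ℕ) (hq : 2 ≤ q) :
    1 / (q : ℝ) ^ 2 + 1 / (q : ℝ) *
    (4 * (1 + Real.log ((q ^ (10 * (Nat.log 2 q + 1)) : ℕ) : ℝ)) / √q +
      (q : ℝ) ^ 2 * (2 / 3) ^ (10 * (Nat.log 2 q + 1))) ≤ 32806 * (q : ℝ) ^ (-(7 / 5) : ℝ) := by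
  have hq1 : (1 : ℝ) ≤ q := by exact_mod_cast (by omega : 1 ≤ q)
  have hq0 : (0 : ℝ) < q := by linarith
  set r : ℝ := (q : ℝ) ^ (-(7 / 5) : ℝ) with hr
  have hr0 : 0 < r := Real.rpow_pos_of_pos hq0 _
  -- first
  have h1 : 1 / (q : ℝ) ^ 2 ≤ r := by
    have : 1 / (q : ℝ) ^ 2 = (q : ℝ) ^ (-2 : ℝ) := by
      rw [Real.rpow_neg hq0.le, one_div]
      norm_num
    rw [this]
    exact rp_le hq1 (by norm_num)
  -- second
  set ℓ : ℝ := Real.log q with hℓ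
  have hℓ0 : 0 ≤ ℓ := Real.log_nonneg hq1
  set m : ℕ := Nat.log 2 q with hm
  have hm1 : (m : ℝ) ≤ 2 * ℓ := by
    have h2 : (2 : ℝ) ^ m ≤ q := by exact_mod_cast Nat.pow_log_le_self 2 (by omega : q ≠ 0)
    have h3 : (m : ℝ) * Real.log 2 ≤ ℓ := by
      rw [← Real.log_pow]
      exact Real.log_le_log (by positivity) h2
    have h4 : (1 / 2 : ℝ) ≤ Real.log 2 := by
      have := Real.log_two_gt_d9
      linarith
    have h5 : (0 : ℝ) ≤ m := Nat.cast_nonneg m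
    nlinarith
  have hlog : Real.log ((q ^ (10 * (m + 1)) : ℕ) : ℝ) = 10 * (m + 1) * ℓ := by
    push_cast
    rw [Real.log_pow]
    push_cast
    ring
  set s : ℝ := (q : ℝ) ^ (1 / 20 : ℝ) with hs
  have hs1 : 1 ≤ s := Real.one_le_rpow hq1 (by norm_num)
  have hℓs : ℓ ≤ 20 * s := by
    have := Real.log_le_rpow_div hq0.le (by norm_num : (0 : ℝ) < 1 / 20)
    rw [← hs] at this
    linarith
  have hs2 : s * s = (q : ℝ) ^ (1 / 10 : ℝ) := by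
    rw [hs, ← Real.rpow_add hq0]
    norm_num
  have h2 : 1 + Real.log ((q ^ (10 * (m + 1)) : ℕ) : ℝ) ≤ 8201 * (s * s) := by
    rw [hlog]
    have a1 : ℓ * ℓ ≤ 20 * s * (20 * s) := mul_le_mul hℓs hℓs hℓ0 (by linarith)
    have a2 : (m : ℝ) * ℓ ≤ 2 * ℓ * ℓ := mul_le_mul_of_nonneg_right hm1 hℓ0
    have a3 : s ≤ s * s := by nlinarith
    nlinarith
  have h3 : 1 / (q : ℝ) * (4 * (1 + Real.log ((q ^ (10 * (m + 1)) : ℕ) : ℝ)) / √q) ≤ 32804 * r := by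
    have e : r = (q : ℝ)⁻¹ * (s * s) * (√q)⁻¹ := by
      rw [hs2, Real.sqrt_eq_rpow, ← Real.rpow_neg hq0.le, ← Real.rpow_neg_one, ← Real.rpow_add hq0,
        ← Real.rpow_add hq0, hr]
      norm_num
    have hsq : 0 < √(q : ℝ) := Real.sqrt_pos.2 hq0
    have : 1 / (q : ℝ) * (4 * (1 + Real.log ((q ^ (10 * (m + 1)) : ℕ) : ℝ)) / √q) =
        ((q : ℝ)⁻¹ * (√q)⁻¹) * (4 * (1 + Real.log ((q ^ (10 * (m + 1)) : ℕ) : ℝ))) := by
      field_simp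
    rw [this, e]
    have hc : 0 < (q : ℝ)⁻¹ * (√q)⁻¹ := by positivity
    calc (q : ℝ)⁻¹ * (√q)⁻¹ * (4 * (1 + Real.log ((q ^ (10 * (m + 1)) : ℕ) : ℝ)))
        ≤ (q : ℝ)⁻¹ * (√q)⁻¹ * (4 * (8201 * (s * s))) :=
          mul_le_mul_of_nonneg_left (by linarith) hc.le
      _ = 32804 * ((q : ℝ)⁻¹ * (s * s) * (√q)⁻¹) := by ring
  -- third
  have h4 : 1 / (q : ℝ) * ((q : ℝ) ^ 2 * (2 / 3) ^ (10 * (m + 1))) ≤ r := by
    have b1 : (q : ℝ) ≤ 2 ^ (m + 1) := by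
      exact_mod_cast (Nat.lt_pow_succ_log_self (by norm_num : 1 < 2) q).le
    have b2 : ((2 : ℝ) / 3) ^ (10 * (m + 1)) ≤ ((q : ℝ) ^ 5)⁻¹ := by
      rw [pow_mul]
      have c1 : ((2 : ℝ) / 3) ^ 10 ≤ 1 / 2 ^ 5 := by norm_num
      calc (((2 : ℝ) / 3) ^ 10) ^ (m + 1) ≤ (1 / 2 ^ 5) ^ (m + 1) :=
            pow_le_pow_left₀ (by positivity) c1 _
        _ = (((2 : ℝ) ^ (m + 1)) ^ 5)⁻¹ := by
            rw [one_div, inv_pow, ← pow_mul, ← pow_mul, mul_comm]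
        _ ≤ ((q : ℝ) ^ 5)⁻¹ := inv_anti₀ (by positivity) (pow_le_pow_left₀ hq0.le b1 5)
    calc 1 / (q : ℝ) * ((q : ℝ) ^ 2 * (2 / 3) ^ (10 * (m + 1)))
        ≤ 1 / (q : ℝ) * ((q : ℝ) ^ 2 * ((q : ℝ) ^ 5)⁻¹) := by gcongr
      _ = (q : ℝ) ^ (-4 : ℝ) := by
          rw [Real.rpow_neg hq0.le]
          have : (q : ℝ) ^ (4 : ℝ) = (q : ℝ) ^ (4 : ℕ) := by
            rw [← Real.rpow_natCast]; norm_num
          rw [this]
          field_simp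
      _ ≤ r := rp_le hq1 (by norm_num)
  rw [mul_add]
  linarith

theorem hSUM : StSUM := by
  refine ⟨32806 * (5 / 2), fun z x hz => ?_⟩
  have hz0 : (0 : ℝ) ≤ (z : ℝ) ^ (-(2 / 5) : ℝ) := Real.rpow_nonneg (Nat.cast_nonneg _) _
  rcases le_or_gt z x with hx | hx
  · calc _ ≤ ∑ q ∈ Finset.Ioc z x, 32806 * (q : ℝ) ^ (-(7 / 5) : ℝ) := by
          refine Finset.sum_le_sum fun q hq => term q ?_
          rw [Finset.mem_Ioc] at hq
          omega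
      _ = 32806 * ∑ q ∈ Finset.Ioc z x, (q : ℝ) ^ (-(7 / 5) : ℝ) := by rw [Finset.mul_sum]
      _ ≤ 32806 * (5 / 2 * ((z : ℝ) ^ (-(2 / 5) : ℝ) - (x : ℝ) ^ (-(2 / 5) : ℝ))) :=
          mul_le_mul_of_nonneg_left (sumtele z hz x hx) (by norm_num)
      _ ≤ _ := by
          have : (0 : ℝ) ≤ (x : ℝ) ^ (-(2 / 5) : ℝ) := Real.rpow_nonneg (Nat.cast_nonneg _) _
          nlinarith
  · rw [Finset.Ioc_eq_empty (by omega)]
    simp only [Finset.sum_empty]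
    positivity

end Pool.Agent.Helper6.DN
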